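import Pool.Agent.Helper50.GP.St

/-! GP MODULE EXS. -/

set_option autoImplicit false

namespace Pool.Agent.Helper44.GP

open Pool.Agent.Helper50.GP

private theorem sum_getD {α : Type} (f : α → ℤ) (d : α) (hd : f d = 0) :
    ∀ (L : List α) (n : ℕ), L.length ≤ n →
      ∑ r ∈ Finset.range n, f (L.getD r d) = (L.map f).sum := by
  intro L
  induction L with
  | nil => intro n _; simp [hd]
  | cons a l ih =>
    intro n hn
    obtain ⟨n', rfl⟩ : ∃ n', n = n' + 1 := ⟨n - 1, by simp only [List.length_cons] at hn; omega⟩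
    rw [Finset.sum_range_succ']
    simp only [List.getD_cons_succ, List.getD_cons_zero, List.map_cons, List.sum_cons]
    rw [ih n' (by simp only [List.length_cons] at hn; omega)]
    ring

theorem hEXS : StEXS := by
  intro p q m e1 e2 ρ hm hq hlen
  have hL : ∀ lam, (words p q m e1 e2 lam ρ).length ≤ p - 1 := by
    intro lam
    simp only [words, List.length_append, List.length_map, List.length_cons, List.length_nil]
    omega
  set f : FreeGroup (ZMod p) → ℤ := fun ω => Multiplicative.toAdd (es ω) with hf
  have hsum : ∀ lam, esum p (fun r => (words p q m e1 e2 lam ρ).getD r 1) =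
      ((words p q m e1 e2 lam ρ).map f).sum := by
    intro lam
    exact sum_getD f 1 (by simp [hf]) _ _ (hL lam)
  have hkey : ∀ lam : ℕ, ((words p q m e1 e2 lam ρ).map f).sum =
      ((words p q m e1 e2 0 ρ).map f).sum + ((m * q * lam : ℕ) : ℤ) := by
    intro lam
    simp only [words, List.map_append, List.sum_append, List.map_cons, List.sum_cons, List.map_nil,
      List.sum_nil]
    have h5 : f (FreeGroup.of 0 ^ (m * q * lam)) = ((m * q * lam : ℕ) : ℤ) := by
      simp [hf, es]
    have h6 : f (FreeGroup.of 0 ^ (m * q * 0)) = 0 := by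
      simp [hf]
    rw [h5, h6]
    ring
  obtain ⟨lam, hlam⟩ : ∃ lam : ℕ, ((words p q m e1 e2 lam ρ).map f).sum ≠ 0 := by
    by_cases h0 : ((words p q m e1 e2 0 ρ).map f).sum = 0
    · refine ⟨1, ?_⟩
      rw [hkey 1, h0, zero_add]
      have : 1 ≤ m * q * 1 := by
        have := Nat.mul_le_mul hm hq
        omega
      intro h
      have h' : m * q * 1 = 0 := by exact_mod_cast h
      omega
    · exact ⟨0, h0⟩
  refine ⟨lam, fun r => (words p q m e1 e2 lam ρ).getD r 1, ?_, ?_, ?_⟩
  · rw [hsum lam]
    exact hlam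
  · intro ω' hω'
    obtain ⟨i, hi, rfl⟩ := List.mem_iff_getElem.1 hω'
    refine ⟨i, lt_of_lt_of_le hi (hL lam), ?_⟩
    simp only [List.getD_eq_getElem _ _ hi]
  · intro r
    by_cases hr : r < (words p q m e1 e2 lam ρ).length
    · left
      simp only [List.getD_eq_getElem _ _ hr]
      exact List.getElem_mem hr
    · right
      exact List.getD_eq_default _ _ (not_lt.1 hr)

end Pool.Agent.Helper44.GP
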